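import Pool.Agent.K3h8.GG.Stm

/-!
# The growth of the algebra of permutations of a tensor power: the upper bound

For an object `M` of pure parity which is finite-dimensional in the sense of Kimura, the algebra
of permutations of the `n`-th tensor power acts faithfully on the realisation, by rational
matrices in the basis of the words.
-/

set_option autoImplicit false
set_option linter.unusedSectionVars false
set_option linter.unusedSimpArgs false
set_option backward.isDefEq.respectTransparency false
set_option backward.defeqAttrib.useBackward true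

open CategoryTheory Limits MonoidalCategory
open Pool.Agent.Y112.SR Pool.Agent.Y112.KD Pool.Agent.R905 Pool.Agent.K3h8.SF Pool.Agent.K3h8.GG
open Functor.LaxMonoidal Functor.OplaxMonoidal

namespace Pool.Agent.K3h33.GG

universe v u w

/-- The words of length `n`. -/
def Wd (ι : Type) : ℕ → Type
  | 0 => PUnit
  | n + 1 => Wd ι n × ι

lemma finite_Wd (ι : Type) [Finite ι] (n : ℕ) : Finite (Wd ι n) := by
  induction n with
  | zero => exact inferInstanceAs (Finite PUnit)
  | succ n ih => exact inferInstanceAs (Finite (Wd ι n × ι))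

lemma card_Wd (ι : Type) (n : ℕ) : Nat.card (Wd ι n) = Nat.card ι ^ n := by
  induction n with
  | zero => exact Nat.card_unique (α := PUnit)
  | succ n ih =>
    rw [pow_succ, ← ih]
    exact Nat.card_prod (Wd ι n) ι

section

variable {C : Type u} [Category.{v} C] [Preadditive C] [Linear ℚ C] [MonoidalCategory C]
  [MonoidalPreadditive C] [MonoidalLinear ℚ C] [SymmetricCategory C]
  {K : Type w} [Field K] (R : SuperRealisation C K)

/-- The exchange of two vectors of an object of pure parity. -/
lemma braid_el {X : C} {d : K} (hd : d * d = 1) (hX : R.par X = d • 𝟙 _) (a c : R.H.obj X) :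
    (R.H.map (β_ X X).hom).hom ((μ R.H X X).hom (a ⊗ₜ[K] c)) =
      d • (μ R.H X X).hom (c ⊗ₜ[K] a) := by
  have hc := R_charZero R
  have hpar : ∀ v : R.H.obj X, (R.par X).hom v = d • v := by
    intro v
    rw [hX]
    rfl
  have h1 := LinearMap.congr_fun (congrArg ModuleCat.Hom.hom (R.symm X X)) (a ⊗ₜ[K] c)
  have h2 : ((𝟙 _ + R.par X ▷ R.H.obj X + R.H.obj X ◁ R.par X - (R.par X ⊗ₘ R.par X)) ≫
      (β_ (R.H.obj X) (R.H.obj X)).hom ≫ μ R.H X X).hom (a ⊗ₜ[K] c) =
      (μ R.H X X).hom (c ⊗ₜ[K] a) + (μ R.H X X).hom (c ⊗ₜ[K] ((R.par X).hom a)) +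
        (μ R.H X X).hom (((R.par X).hom c) ⊗ₜ[K] a) -
        (μ R.H X X).hom (((R.par X).hom c) ⊗ₜ[K] ((R.par X).hom a)) := by
    rw [ModuleCat.hom_comp, ModuleCat.hom_comp, LinearMap.comp_apply, LinearMap.comp_apply,
      ModuleCat.hom_sub, ModuleCat.hom_add, ModuleCat.hom_add, LinearMap.sub_apply,
      LinearMap.add_apply, LinearMap.add_apply, map_sub, map_add, map_add, map_sub, map_add,
      map_add]
    rfl
  have h3 : (2 : K) • (R.H.map (β_ X X).hom).hom ((μ R.H X X).hom (a ⊗ₜ[K] c)) =
      (2 : K) • (d • (μ R.H X X).hom (c ⊗ₜ[K] a)) := by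
    refine Eq.trans h1 (h2.trans ?_)
    rw [hpar a, hpar c, TensorProduct.tmul_smul, TensorProduct.tmul_smul,
      ← TensorProduct.smul_tmul', smul_smul, hd, one_smul, map_smul]
    module
  have h4 := congrArg (fun z => (2 : K)⁻¹ • z) h3
  simp only [smul_smul, ← mul_assoc, inv_mul_cancel₀ (two_ne_zero : (2 : K) ≠ 0), one_smul,
    one_mul] at h4
  exact h4

/-- The vector of a word. -/
noncomputable def vec {M : C} {ι : Type} (b : ι → R.H.obj M) :
    ∀ n : ℕ, Wd ι n → R.H.obj (tp M n)
  | 0, _ => (ε R.H).hom (1 : K)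
  | n + 1, w => (μ R.H (tp M n) M).hom (vec b n w.1 ⊗ₜ[K] b w.2)

lemma vec_succ {M : C} {ι : Type} (b : ι → R.H.obj M) (n : ℕ) (w : Wd ι n) (i : ι) :
    vec R b (n + 1) (w, i) = (μ R.H (tp M n) M).hom (vec R b n w ⊗ₜ[K] b i) := rfl

/-- The vectors of the words span the realisation of the tensor power. -/
lemma span_vec {M : C} {ι : Type} (b : ι → R.H.obj M)
    (hb : Submodule.span K (Set.range b) = ⊤) (n : ℕ) :
    Submodule.span K (Set.range (vec R b n)) = ⊤ := by
  induction n with
  | zero =>
    rw [eq_top_iff]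
    intro x _
    have h1 : x = (ε R.H).hom ((η R.H).hom x) := by
      rw [← LinearMap.comp_apply, ← ModuleCat.hom_comp, Functor.Monoidal.η_ε]
      rfl
    have h2 : x = (show K from (η R.H).hom x) • (ε R.H).hom (1 : K) := by
      conv_lhs => rw [h1]
      rw [← map_smul]
      congr 1
      exact (mul_one (show K from (η R.H).hom x)).symm
    rw [h2]
    exact Submodule.smul_mem _ _ (Submodule.subset_span ⟨PUnit.unit, rfl⟩)
  | succ n ih =>
    rw [eq_top_iff]
    intro x _
    have h1 : x = (μ R.H (tp M n) M).hom ((δ R.H (tp M n) M).hom x) := by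
      rw [← LinearMap.comp_apply, ← ModuleCat.hom_comp, Functor.Monoidal.δ_μ]
      rfl
    rw [h1]
    have key : ∀ t : TensorProduct K (R.H.obj (tp M n)) (R.H.obj M),
        (μ R.H (tp M n) M).hom t ∈ Submodule.span K (Set.range (vec R b (n + 1))) := by
      intro t
      induction t with
      | zero => rw [map_zero]; exact Submodule.zero_mem _
      | add x y hx hy => rw [map_add]; exact Submodule.add_mem _ hx hy
      | tmul x y =>
        have hx : x ∈ Submodule.span K (Set.range (vec R b n)) := by rw [ih]; trivial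
        have hy : y ∈ Submodule.span K (Set.range b) := by rw [hb]; trivial
        induction hx using Submodule.span_induction with
        | mem x hx =>
          obtain ⟨w, rfl⟩ := hx
          induction hy using Submodule.span_induction with
          | mem y hy =>
            obtain ⟨i, rfl⟩ := hy
            exact Submodule.subset_span ⟨(w, i), rfl⟩
          | zero => rw [TensorProduct.tmul_zero, map_zero]; exact Submodule.zero_mem _
          | add y z _ _ hy hz => rw [TensorProduct.tmul_add, map_add]; exact Submodule.add_mem _ hy hz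
          | smul c y _ hy => rw [TensorProduct.tmul_smul, map_smul]; exact Submodule.smul_mem _ _ hy
        | zero => rw [TensorProduct.zero_tmul, map_zero]; exact Submodule.zero_mem _
        | add y z _ _ hy hz => rw [TensorProduct.add_tmul, map_add]; exact Submodule.add_mem _ hy hz
        | smul c y _ hy =>
          rw [← TensorProduct.smul_tmul', map_smul]; exact Submodule.smul_mem _ _ hy
    exact key _

/-- An exchange of neighbouring letters permutes the vectors of the words up to a sign. -/
lemma exists_word {M : C} {d : K} (hdd : d * d = 1) (hM : R.par M = d • 𝟙 _) {ι : Type}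
    (b : ι → R.H.obj M) {n : ℕ} {s : tp M n ⟶ tp M n} (hs : IsSwap M n s) :
    ∀ w : Wd ι n, ∃ w' : Wd ι n, (R.H.map s).hom (vec R b n w) = d • vec R b n w' := by
  induction hs with
  | last n =>
    rintro ⟨⟨w, i⟩, j⟩
    refine ⟨((w, j), i), ?_⟩
    rw [sw, Functor.map_comp, Functor.map_comp, ModuleCat.hom_comp, ModuleCat.hom_comp,
      LinearMap.comp_apply, LinearMap.comp_apply, vec_succ, vec_succ, map_assoc_el,
      map_whiskerLeft_el, braid_el R hdd hM, TensorProduct.tmul_smul, map_smul, map_smul,
      map_assoc_inv_el]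
    rfl
  | lift n s _ ih =>
    rintro ⟨w, i⟩
    obtain ⟨w', hw'⟩ := ih w
    refine ⟨(w', i), ?_⟩
    rw [vec_succ, vec_succ, map_whiskerRight_el, hw', ← TensorProduct.smul_tmul', map_smul]

/-- The permutations act by rational matrices. -/
lemma exists_matrix {M : C} {d : ℚ} (hdd : d * d = 1) (hM : R.par M = (d : K) • 𝟙 _) {ι : Type}
    (b : ι → R.H.obj M) (n : ℕ) [Fintype (Wd ι n)] {f : End (tp M n)} (hf : f ∈ permAlg M n) :
    ∃ m : Wd ι n → Wd ι n → ℚ, ∀ w, (R.H.map (f : tp M n ⟶ tp M n)).hom (vec R b n w) =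
      ∑ u, (m w u : K) • vec R b n u := by
  classical
  have hK := R_charZero R
  have hdd' : (d : K) * d = 1 := by exact_mod_cast hdd
  induction hf using Algebra.adjoin_induction with
  | mem s hs =>
    choose g hg using exists_word R hdd' hM b hs
    refine ⟨fun w u => if u = g w then d else 0, fun w => ?_⟩
    rw [hg w, Finset.sum_eq_single (g w)]
    · beta_reduce
      rw [if_pos rfl]
    · intro u _ hu
      beta_reduce
      rw [if_neg hu, Rat.cast_zero, zero_smul]
    · intro h
      exact absurd (Finset.mem_univ _) h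
  | algebraMap r =>
    refine ⟨fun w u => if u = w then r else 0, fun w => ?_⟩
    have h1 : R.H.map (algebraMap ℚ (End (tp M n)) r : tp M n ⟶ tp M n) = (r : K) • 𝟙 _ := by
      have e1 : (algebraMap ℚ (End (tp M n)) r : tp M n ⟶ tp M n) = r • 𝟙 (tp M n) :=
        Algebra.algebraMap_eq_smul_one r
      rw [e1, R_smul, CategoryTheory.Functor.map_id]
    rw [h1, Finset.sum_eq_single w]
    · beta_reduce
      rw [if_pos rfl]
      rfl
    · intro u _ hu
      beta_reduce
      rw [if_neg hu, Rat.cast_zero, zero_smul]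
    · intro h
      exact absurd (Finset.mem_univ _) h
  | add f g _ _ hf hg =>
    obtain ⟨m, hm⟩ := hf
    obtain ⟨m', hm'⟩ := hg
    refine ⟨fun w u => m w u + m' w u, fun w => ?_⟩
    have h1 : R.H.map ((f + g : End (tp M n)) : tp M n ⟶ tp M n) =
        R.H.map (f : tp M n ⟶ tp M n) + R.H.map (g : tp M n ⟶ tp M n) := R.H.map_add
    rw [h1, ModuleCat.hom_add, LinearMap.add_apply, hm, hm', ← Finset.sum_add_distrib]
    refine Finset.sum_congr rfl fun u _ => ?_
    rw [Rat.cast_add, add_smul]
  | mul f g _ _ hf hg =>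
    obtain ⟨m, hm⟩ := hf
    obtain ⟨m', hm'⟩ := hg
    refine ⟨fun w u => ∑ z, m' w z * m z u, fun w => ?_⟩
    have h1 : R.H.map ((f * g : End (tp M n)) : tp M n ⟶ tp M n) =
        R.H.map (g : tp M n ⟶ tp M n) ≫ R.H.map (f : tp M n ⟶ tp M n) := R.H.map_comp _ _
    rw [h1, ModuleCat.hom_comp, LinearMap.comp_apply, hm', map_sum]
    have h2 : ∀ z, (R.H.map (f : tp M n ⟶ tp M n)).hom ((m' w z : K) • vec R b n z) =
        ∑ u, ((m' w z * m z u : ℚ) : K) • vec R b n u := by
      intro z
      rw [map_smul, hm, Finset.smul_sum]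
      refine Finset.sum_congr rfl fun u _ => ?_
      rw [smul_smul, Rat.cast_mul]
    rw [Finset.sum_congr rfl fun z _ => h2 z, Finset.sum_comm]
    refine Finset.sum_congr rfl fun u _ => ?_
    rw [Rat.cast_sum, Finset.sum_smul]

variable [RightRigidCategory C] [IsIdempotentComplete C]

/-- The action on the realisation is faithful. -/
lemma eq_zero_of_map (hU : UnitQ C) {M : C} {d : ℚ} (hd : d = 1 ∨ d = -1)
    (hM : R.par M = (d : K) • 𝟙 _) (h : IsKimuraFinite M) (n : ℕ) {w : End (tp M n)}
    (hw : w ∈ permAlg M n) (h0 : R.H.map (w : tp M n ⟶ tp M n) = 0) : w = 0 := by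
  obtain ⟨N, hN⟩ := h.summand R hU (𝟙 M) (𝟙 M) (Category.comp_id _) hd hM
  have hκ : -d = 1 ∨ -d = -1 := by
    rcases hd with h | h
    · right; rw [h]
    · left; rw [h, neg_neg]
  have hnil : HomNil R (tp M n) := Pool.Agent.K3h90.SF.t_NOPH (C := C) K R hU M _ hκ N hN n
  obtain ⟨u, -, hu⟩ := Pool.Agent.K3h43.SF.t_MONC1 C M (𝟙 M) (Category.comp_id _) n w
    (adjoin_le_nat (𝟙 M) hw)
  set e : End (tp M n) := w * u with he
  have hee : e * e = e := by rw [he, ← mul_assoc, hu]
  have hHe : R.H.map (e : tp M n ⟶ tp M n) = 0 := by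
    have e1 : R.H.map (e : tp M n ⟶ tp M n) =
      R.H.map (u : tp M n ⟶ tp M n) ≫ R.H.map (w : tp M n ⟶ tp M n) := R.H.map_comp _ _
    rw [e1, h0, comp_zero]
  obtain ⟨k, hk⟩ := hnil e hHe
  have hpow : ∀ k : ℕ, e ^ (k + 1) = e := by
    intro k
    induction k with
    | zero => rw [zero_add, pow_one]
    | succ k ih => rw [pow_succ, ih, hee]
  have he0 : e = 0 := by
    have e1 := hpow k
    rw [pow_succ, hk, zero_mul] at e1
    exact e1.symm
  rw [← hu, he0, zero_mul]

end

section

variable (C : Type u) [Category.{v} C] [Preadditive C] [Linear ℚ C] [MonoidalCategory C]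
  [MonoidalPreadditive C] [MonoidalLinear ℚ C] [SymmetricCategory C] [RightRigidCategory C]
  [IsIdempotentComplete C]

/-- The upper bound for the algebra of permutations. -/
theorem t_UB' : S_UB.{v, u, w} C := by
  intro K _ R hU M d hd hM hKim n
  have hK := R_charZero R
  have hdd : d * d = 1 := by rcases hd with rfl | rfl <;> norm_num
  by_cases hfin : Module.Finite ℚ (permAlg M n)
  swap
  · rw [Module.finrank_of_not_finite hfin]
    exact Nat.zero_le _
  set c : ℕ := Module.finrank K (R.H.obj M) with hc
  let β := Module.finBasis K (R.H.obj M)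
  have hβ : Submodule.span K (Set.range β) = ⊤ := β.span_eq
  have hspan := span_vec R (M := M) β hβ n
  have hfinW : Finite (Wd (Fin c) n) := finite_Wd (Fin c) n
  let hW : Fintype (Wd (Fin c) n) := Fintype.ofFinite _
  let e := Module.finBasis ℚ (permAlg M n)
  have hm1 : ∀ i, ∃ m : Wd (Fin c) n → Wd (Fin c) n → ℚ, ∀ w,
      (R.H.map ((e i : End (tp M n)) : tp M n ⟶ tp M n)).hom (vec R β n w) =
      ∑ u, (m w u : K) • vec R β n u := fun i => exists_matrix R hdd hM β n (e i).2
  choose m hm using hm1
  have hli : LinearIndependent ℚ (fun i => (fun p : Wd (Fin c) n × Wd (Fin c) n => m i p.1 p.2)) := by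
    rw [Fintype.linearIndependent_iff]
    intro g hg
    have h1 : ∀ w u, ∑ i, g i * m i w u = 0 := by
      intro w u
      have h2 := congrFun hg (w, u)
      simpa [Finset.sum_apply] using h2
    set f : permAlg M n := ∑ i, g i • e i with hf
    have h2 : R.H.map ((f : End (tp M n)) : tp M n ⟶ tp M n) =
        ∑ i, (g i : K) • R.H.map ((e i : End (tp M n)) : tp M n ⟶ tp M n) := by
      have e1 : ((f : End (tp M n)) : tp M n ⟶ tp M n) =
          ∑ i, (g i • (e i : End (tp M n)) : tp M n ⟶ tp M n) := by
        rw [hf, AddSubmonoidClass.coe_finsetSum]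
        rfl
      rw [e1, Functor.map_sum]
      refine Finset.sum_congr rfl fun i _ => ?_
      rw [R_smul]
    have h3 : R.H.map ((f : End (tp M n)) : tp M n ⟶ tp M n) = 0 := by
      apply ModuleCat.hom_ext
      apply LinearMap.ext_on_range hspan
      intro w
      have e2 : (∑ i, (g i : K) • R.H.map ((e i : End (tp M n)) : tp M n ⟶ tp M n)).hom
          (vec R β n w) = ∑ i, (g i : K) •
            (R.H.map ((e i : End (tp M n)) : tp M n ⟶ tp M n)).hom (vec R β n w) := by
        rw [ModuleCat.hom_sum, LinearMap.sum_apply]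
        rfl
      have e3 : ∀ i, (g i : K) •
          (R.H.map ((e i : End (tp M n)) : tp M n ⟶ tp M n)).hom (vec R β n w) =
          ∑ z, ((g i * m i w z : ℚ) : K) • vec R β n z := by
        intro i
        rw [hm, Finset.smul_sum]
        refine Finset.sum_congr rfl fun z _ => ?_
        rw [smul_smul, Rat.cast_mul]
      rw [h2, e2, Finset.sum_congr rfl fun i _ => e3 i, Finset.sum_comm]
      rw [Finset.sum_eq_zero]
      · rfl
      · intro z _
        rw [← Finset.sum_smul, ← Rat.cast_sum, h1, Rat.cast_zero, zero_smul]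
    have h4 : (f : End (tp M n)) = 0 := eq_zero_of_map R hU hd hM hKim n f.2 h3
    have h5 : f = 0 := Subtype.ext h4
    exact Fintype.linearIndependent_iff.1 e.linearIndependent g h5
  have h1 := hli.fintype_card_le_finrank
  rw [Fintype.card_fin, Module.finrank_fintype_fun_eq_card, Fintype.card_prod,
    ← Nat.card_eq_fintype_card, card_Wd, Nat.card_eq_fintype_card, Fintype.card_fin] at h1
  rw [two_mul, pow_add]
  exact h1

/-- brick UB. -/
theorem t_UB (_ : S_CAT.{v, u} C) : S_UB.{v, u, w} C := t_UB' C

end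

end Pool.Agent.K3h33.GG
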